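import Mathlib
import Pool.Agent.Q133.BallPack2

set_option autoImplicit false

/-!
# An augmented circle packing that is not sphere packable in `ℝ³`
-/

namespace Pool.Agent.Results.MP_ffcab7_co.HexletAugmentation

open Q133.BallPack

/-- There are a graph `G` on nine vertices, a circle packing of `G` in the plane (so `G` is planar)
and a height function `f` on `G` such that nearest lower vertices can be chosen and, for every such
choice `g`, the augmented graph is not sphere packable in `ℝ³`. -/
theorem result : ∃ (G : SimpleGraph (Fin 9)) (c : Fin 9 → EuclideanSpace ℝ (Fin 2)) (r : Fin 9 → ℝ)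
    (f : Fin 9 → ℤ), IsPacking 2 G c r ∧ IsHeight G f ∧ (∃ g, IsNearestChoice f c g) ∧
      ∀ g, IsNearestChoice f c g → ¬ Packable 3 (augmented G f g) := by
  refine ⟨cG, cc, cr, cf, packing_iff 2 cG cc cr cpos (fun u v h => cdist_le u v (csep u v h))
    (fun u v => Iff.rfl), ?_, ⟨fun _ => 2, ?_⟩, ?_⟩
  · intro u v _
    have : ∀ u v : Fin 9, |cf u - cf v| ≤ 1 := by decide
    exact this u v
  · intro v hv
    have h1 : ∀ v : Fin 9, (∃ u, cf u < cf v) → cf 2 < cf v := by decide
    have h2 : ∀ u v : Fin 9, cf u < cf v → u = 2 := by decide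
    refine ⟨h1 v hv, fun u hu => ?_⟩
    rw [h2 u v hu]
  · intro g hg
    have hex : ∀ v : Fin 9, v ≠ 2 → ∃ x, cf x < cf v := by decide
    have h2 : ∀ u v : Fin 9, cf u < cf v → u = 2 := by decide
    have hno : ¬ ∃ x, cf x < cf 2 := by decide
    have hg2 : ∀ v : Fin 9, v ≠ 2 → g v = 2 := fun v hv => h2 _ v (hg v (hex v hv)).1
    have hG : ∀ u v : Fin 9, u ≠ v → (cx u - cx v) ^ 2 + (cy u - cy v) ^ 2 = (cr u + cr v) ^ 2 →
        (augmented cG cf g).Adj u v := fun u v huv h =>
      ⟨huv, Or.inl ⟨huv, (cdist_eq u v).2 h⟩⟩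
    have hc : ∀ v : Fin 9, v ≠ 2 → (augmented cG cf g).Adj v 2 := fun v hv =>
      ⟨hv, Or.inr (Or.inl ⟨hex v hv, hg2 v hv⟩)⟩
    have h0j : ∀ j : Fin 9, 3 ≤ j → (augmented cG cf g).Adj 0 j := by
      intro j hj
      refine hG 0 j ?_ ?_
      · intro h; rw [← h] at hj; exact absurd hj (by decide)
      · fin_cases j <;> first
          | exact absurd hj (by decide)
          | (simp [cr, cx, cy]; norm_num)
    have h1j : ∀ j : Fin 9, 3 ≤ j → (augmented cG cf g).Adj 1 j := by
      intro j hj
      refine hG 1 j ?_ ?_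
      · intro h; rw [← h] at hj; exact absurd hj (by decide)
      · fin_cases j <;> first
          | exact absurd hj (by decide)
          | (simp [cr, cx, cy]; norm_num)
    refine not_packable _ ?_ (hc 0 (by decide)) (hc 1 (by decide)) ?_ ?_ ?_ ?_ ?_ ?_ ?_
    · exact hG 0 1 (by decide) (by simp [cr, cx, cy]; norm_num)
    · intro i j hi hj
      have hi' : i = 0 ∨ i = 1 ∨ i = 2 := by
        revert i; decide
      rcases hi' with rfl | rfl | rfl
      · exact h0j j hj
      · exact h1j j hj
      · refine (hc j ?_).symm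
        intro h; rw [h] at hj; exact absurd hj (by decide)
    · exact hG 3 4 (by decide) (by simp [cr, cx, cy]; norm_num)
    · exact hG 4 5 (by decide) (by simp [cr, cx, cy]; norm_num)
    · exact hG 5 6 (by decide) (by simp [cr, cx, cy]; norm_num)
    · exact hG 6 7 (by decide) (by simp [cr, cx, cy]; norm_num)
    · exact hG 7 8 (by decide) (by simp [cr, cx, cy]; norm_num)
    · rintro ⟨_, h | h | h⟩
      · have := (cdist_eq 3 8).1 h.2
        simp [cr, cx, cy] at this
        norm_num at this
      · have := h.2
        rw [hg2 3 (by decide)] at this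
        exact absurd this (by decide)
      · have := h.2
        rw [hg2 8 (by decide)] at this
        exact absurd this (by decide)

end Pool.Agent.Results.MP_ffcab7_co.HexletAugmentation
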